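import Pool.Agent.Helper50.BL.Stmts
import Pool.Agent.Helper50.BL.Base

/-! Module EVT. -/

set_option autoImplicit false

namespace Pool.Agent.Helper50.BL

open Finset
open scoped Classical

theorem st_EVT (h1 : ST_HOEF) (h2 : ST_GB) : ST_EVT := by
  intro V _ _ y γ H w w' hy hγ hH
  obtain ⟨g1, g2, g3, -, -⟩ := h2
  refine ⟨?_, ?_⟩
  · intro ξ ξ' h
    have : ∑ x ∈ Dst w w', inc (y x) (ξ x) (w x) (w' x) =
        ∑ x ∈ Dst w w', inc (y x) (ξ' x) (w x) (w' x) :=
      Finset.sum_congr rfl fun x hx => by rw [h x hx]
    unfold BadE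
    rw [this]
  · have hW : IsW (mw y) := g1 V y hy
    set D := Dst w w' with hD
    rcases Nat.eq_zero_or_pos #D with h0 | h0
    · have hDe : D = ∅ := Finset.card_eq_zero.1 h0
      have hf : ∀ ξ, ¬ BadE y γ H w w' ξ := by
        intro ξ hb
        unfold BadE at hb
        rw [← hD, hDe] at hb
        simp at hb
      rw [Pr_false (mw y) hf]
      exact (Real.exp_pos _).le
    · have hDp : (0 : ℝ) < (#D : ℝ) := by exact_mod_cast h0
      set u := Real.sqrt (18 * (#D : ℝ) * (H + γ * (#D : ℝ))) with hu
      have hnn : 0 ≤ 18 * (#D : ℝ) * (H + γ * (#D : ℝ)) := by positivity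
      choose lo hlo using fun x => g3 (y x) (w x) (w' x) (hy x)
      have key := h1 V SignType (mw y) hW
        (fun x a => if x ∈ D then inc (y x) a (w x) (w' x) else 0)
        (fun x => if x ∈ D then lo x else 0)
        (fun x => if x ∈ D then 2 * |(w x : ℝ) - 2 * (w' x : ℝ)| else 0)
        (36 * (#D : ℝ)) u ?_ ?_ ?_ (by positivity) (Real.sqrt_nonneg _)
      · refine le_trans (Pr_mono hW (B := fun ξ => u ≤ ∑ v, (if v ∈ D then
          inc (y v) (ξ v) (w v) (w' v) else 0)) ?_) (le_trans key ?_)
        · intro ξ hb
          unfold BadE at hb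
          rw [← hD, ← hu] at hb
          have e : ∑ v, (if v ∈ D then inc (y v) (ξ v) (w v) (w' v) else 0) =
              ∑ x ∈ D, inc (y x) (ξ x) (w x) (w' x) := by
            rw [Finset.sum_ite_mem, Finset.univ_inter]
          rw [e]
          exact hb.le
        · have : 2 * u ^ 2 / (36 * (#D : ℝ)) = H + γ * (#D : ℝ) := by
            rw [hu, Real.sq_sqrt hnn]
            field_simp
            ring
          rw [this]
      · intro x a
        by_cases hx : x ∈ D
        · simp only [hx, if_true]
          exact hlo x a
        · simp only [hx, if_false]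
          exact ⟨le_refl _, by norm_num⟩
      · intro x
        by_cases hx : x ∈ D
        · simp only [hx, if_true]
          exact g2 V y x (w x) (w' x)
        · simp only [hx, if_false, mul_zero, Finset.sum_const_zero]
      · have e : ∀ x, (if x ∈ D then 2 * |(w x : ℝ) - 2 * (w' x : ℝ)| else 0) ^ 2 ≤
            if x ∈ D then (36 : ℝ) else 0 := by
          intro x
          by_cases hx : x ∈ D
          · simp only [hx, if_true]
            have h3 : |w x - 2 * w' x| ≤ 3 := by
              rw [hD] at hx
              unfold Dst at hx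
              exact (Finset.mem_filter.1 hx).2.2
            have h4 : |(w x : ℝ) - 2 * (w' x : ℝ)| ≤ 3 := by
              have : ((|w x - 2 * w' x| : ℤ) : ℝ) ≤ ((3 : ℤ) : ℝ) := by exact_mod_cast h3
              push_cast at this
              exact this
            have h5 : 0 ≤ |(w x : ℝ) - 2 * (w' x : ℝ)| := abs_nonneg _
            nlinarith
          · simp only [hx, if_false]
            norm_num
        refine le_trans (Finset.sum_le_sum fun x _ => e x) ?_
        rw [Finset.sum_ite_mem, Finset.univ_inter, Finset.sum_const, nsmul_eq_mul, mul_comm]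

end Pool.Agent.Helper50.BL
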